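import Pool.Agent.Q303.Jump

/-! MP_9b97c3_lc: iterated group jumps are not single group jumps. -/

open Set Topology Filter MeasureTheory

namespace Pool.Agent.Results.MP_9b97c3_lc.IteratedJump

open Pool.Agent.Q303.Jump

/-- For equality on any Polish space with at least two points, and any two infinite countable
groups `G` and `H`, the iterated jump `(=^{[G]})^{[H]}` is not Borel reducible to `=^{[K]}`
for any countable group `K`. -/
theorem result (X : Type*) [TopologicalSpace X] [PolishSpace X] [Nontrivial X]
    (G : Type*) [Group G] [Countable G] [Infinite G]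
    (H : Type*) [Group H] [Countable H] [Infinite H]
    (K : Type*) [Group K] [Countable K] :
    ¬ BorelRed (jump H (jump G (fun a b : X => a = b))) (jump K (fun a b : X => a = b)) := by
  rintro ⟨f, hf, hred⟩
  obtain ⟨p, q, hpq⟩ := exists_pair_ne X
  let ι : Bool → X := fun b => if b then p else q
  have hι : Function.Injective ι := by
    intro a b hab
    cases a <;> cases b <;> simp_all [ι]
  let e : (H → G → Bool) → H → G → X := fun x h g => ι (x h g)
  have he : Continuous e := by
    apply continuous_pi
    intro h
    apply continuous_pi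
    intro g
    have h1 : Continuous ι := continuous_of_discreteTopology
    exact h1.comp ((continuous_apply g).comp (continuous_apply h))
  have hje : ∀ x x', jump H (jump G (fun a b : Bool => a = b)) x x' ↔
      jump H (jump G (fun a b : X => a = b)) (e x) (e x') := by
    intro x x'
    constructor
    · rintro ⟨n, hn⟩
      refine ⟨n, fun m => ?_⟩
      obtain ⟨γ, hγ⟩ := hn m
      exact ⟨γ, fun j => congrArg ι (hγ j)⟩
    · rintro ⟨n, hn⟩
      refine ⟨n, fun m => ?_⟩
      obtain ⟨γ, hγ⟩ := hn m
      exact ⟨γ, fun j => hι (hγ j)⟩
  refine core (Y := K → X) (κ := K) (fun k α h => α (k⁻¹ * h)) ?_ (fun x => f (e x)) ?_ ?_ ?_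
  · intro k
    exact continuous_pi fun h => continuous_apply _
  · have : @Measurable _ _ (borel _) (borel _) e := by
      letI m1 : MeasurableSpace (H → G → Bool) := borel _
      haveI b1 : BorelSpace (H → G → Bool) := ⟨rfl⟩
      letI m2 : MeasurableSpace (H → G → X) := borel _
      haveI b2 : BorelSpace (H → G → X) := ⟨rfl⟩
      exact he.measurable
    exact hf.comp this
  · intro g x
    obtain ⟨k, hk⟩ := (hred _ _).1 ((hje _ _).1 (jump_act g x))
    exact ⟨k, funext hk⟩
  · intro x x' hxx
    apply (hje _ _).2
    apply (hred _ _).2
    refine ⟨1, fun h => ?_⟩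
    rw [inv_one, one_mul]
    exact congrFun hxx h

end Pool.Agent.Results.MP_9b97c3_lc.IteratedJump
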